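import Pool.Agent.H20.Sch2

namespace Pool.Agent.Results.MP_d8b6f8_al.Q1False

open Pool.Agent.H20.Sch

theorem result : ∃ X : Cls, Schunck X ∧ Idem X ∧ ∃ (G : Type) (_ : Group G) (_ : Finite G)
    (_ : Group.IsSolvable G) (H : Subgroup G), MaxSub X H ∧ ¬ Proj X H := q1

end Pool.Agent.Results.MP_d8b6f8_al.Q1False
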