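import Pool.Agent.H20.Sch2

namespace Pool.Agent.Results.MP_d8b6f8_al.Q2No

open Pool.Agent.H20.Sch

theorem result : ∃ X Y : Cls, Schunck X ∧ Idem X ∧ Schunck Y ∧ Idem Y ∧ ¬ Idem (Join X Y) := q2

end Pool.Agent.Results.MP_d8b6f8_al.Q2No
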